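import Mathlib
import Pool.Agent.TH792.VeeLocal

/-! # MP_44d68a_mp, Q1: which irreducible ∨-systems are locally determined by their matroid and
their ν-function: exactly those in dimension `≠ 2`. -/

set_option autoImplicit false

namespace Pool.Agent.Results.MP_44d68a_mp.LocalRigidity

open Module Submodule Pool.Agent.TH792.Vee

noncomputable section

variable {V : Type*} [AddCommGroup V] [Module ℝ V] {E : Type*} [Fintype E]

open scoped Classical in
/-- the set of covectors of a labelled configuration `a : E → V^*` -/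
def cfg (a : E → Dual ℝ V) : Finset (Dual ℝ V) := Finset.univ.image a

/-- a labelled ∨-system: an injective map `E → V^*` whose image is a ∨-system -/
structure IsLabelled (a : E → Dual ℝ V) : Prop where
  injective : Function.Injective a
  isVeeSystem : IsVeeSystem (cfg a)

/-- the labelled configurations `a` and `b` induce the same matroid on `E`, and they have the same
value of the ν-function on every 2-flat `F = {e | a e ∈ P}` (`P` a plane) with at least three
elements -/
structure SameData (a b : E → Dual ℝ V) : Prop where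
  matroid : ∀ s : Set E, LinearIndepOn ℝ b s ↔ LinearIndepOn ℝ a s
  nu_eq : ∀ (P : Submodule ℝ (Dual ℝ V)) (F : Set E), finrank ℝ P = 2 → F = {e | a e ∈ P} →
    3 ≤ F.ncard → nu (cfg b) (span ℝ (b '' F)) = nu (cfg a) (span ℝ (a '' F))

/-- `a` is locally determined by its matroid and its ν-function: every labelled ∨-system `b` in
some neighbourhood of `a` in `(V^*)^E` with the same matroid and the same ν-values is `g ∘ a` for
some `g ∈ GL(V^*)`. A (basic) neighbourhood of `a` consists of the `b` whose values on finitely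
many vectors are closer than `ε` to those of `a`. -/
def LocallyDetermined (a : E → Dual ℝ V) : Prop :=
  ∃ (S : Finset V) (ε : ℝ), 0 < ε ∧ ∀ b : E → Dual ℝ V, IsLabelled b → SameData a b →
    (∀ e, ∀ v ∈ S, |b e v - a e v| < ε) →
    ∃ g : Dual ℝ V ≃ₗ[ℝ] Dual ℝ V, ∀ e, b e = g (a e)

/-! ### Basic facts -/

lemma mem_cfg (a : E → Dual ℝ V) (x : Dual ℝ V) : x ∈ cfg a ↔ ∃ e, a e = x := by
  simp [cfg]

lemma coe_cfg (a : E → Dual ℝ V) : (cfg a : Set (Dual ℝ V)) = Set.range a := by
  ext x; simp [cfg]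

variable [FiniteDimensional ℝ V]

lemma finrank_le (a b : E → Dual ℝ V)
    (hm : ∀ s : Set E, LinearIndepOn ℝ a s → LinearIndepOn ℝ b s) (s : Set E) :
    finrank ℝ (span ℝ (a '' s)) ≤ finrank ℝ (span ℝ (b '' s)) := by
  obtain ⟨t, ht, -, hsp, hli⟩ :=
    exists_linearIndepOn_extension (linearIndepOn_empty ℝ a) (Set.empty_subset s)
  classical
  have h1 : finrank ℝ (span ℝ (a '' s)) ≤ finrank ℝ (span ℝ (a '' t)) :=
    Submodule.finrank_mono (span_le.2 hsp)
  have h2 : finrank ℝ (span ℝ (a '' t)) = Fintype.card t := by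
    have := finrank_span_eq_card (R := ℝ) hli
    rwa [← Set.image_eq_range] at this
  have h3 : finrank ℝ (span ℝ (b '' t)) = Fintype.card t := by
    have := finrank_span_eq_card (R := ℝ) (hm t hli)
    rwa [← Set.image_eq_range] at this
  have h4 : finrank ℝ (span ℝ (b '' t)) ≤ finrank ℝ (span ℝ (b '' s)) :=
    Submodule.finrank_mono (span_mono (Set.image_mono ht))
  omega

lemma irr_transfer {a b : E → Dual ℝ V} (ha : IsLabelled a)
    (hm : ∀ s : Set E, LinearIndepOn ℝ b s ↔ LinearIndepOn ℝ a s)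
    (hirr : IsIrreducible (cfg a)) : IsIrreducible (cfg b) := by
  intro B₁ B₂ hun hdis h1 h2 hc
  have hfr : ∀ s : Set E, finrank ℝ (span ℝ (a '' s)) = finrank ℝ (span ℝ (b '' s)) := fun s =>
    le_antisymm (finrank_le a b (fun s => (hm s).2) s) (finrank_le b a (fun s => (hm s).1) s)
  have hB1 : b '' (b ⁻¹' B₁) = B₁ := by
    rw [Set.image_preimage_eq_iff, ← coe_cfg, ← hun]; exact Set.subset_union_left
  have hB2 : b '' (b ⁻¹' B₂) = B₂ := by
    rw [Set.image_preimage_eq_iff, ← coe_cfg, ← hun]; exact Set.subset_union_right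
  have huniv : b ⁻¹' B₁ ∪ b ⁻¹' B₂ = Set.univ := by
    rw [← Set.preimage_union, hun, coe_cfg]; simp
  refine hirr (a '' (b ⁻¹' B₁)) (a '' (b ⁻¹' B₂)) ?_ ?_ ?_ ?_ ?_
  · rw [← Set.image_union, huniv, Set.image_univ, coe_cfg]
  · exact (Set.disjoint_image_iff ha.injective).2 (hdis.preimage b)
  · rw [← hB1] at h1
    exact (h1.of_image).image a
  · rw [← hB2] at h2
    exact (h2.of_image).image a
  · have hcod : Codisjoint (span ℝ (a '' (b ⁻¹' B₁))) (span ℝ (a '' (b ⁻¹' B₂))) := by
      rw [codisjoint_iff, ← span_union, ← Set.image_union, huniv, Set.image_univ, ← coe_cfg]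
      exact ha.isVeeSystem.span_eq_top
    refine ⟨?_, hcod⟩
    have e1 := finrank_sup_add_finrank_inf_eq (span ℝ (a '' (b ⁻¹' B₁)))
      (span ℝ (a '' (b ⁻¹' B₂)))
    have e2 := finrank_sup_add_finrank_inf_eq (span ℝ B₁) (span ℝ B₂)
    rw [codisjoint_iff.1 hcod] at e1
    rw [codisjoint_iff.1 hc.2, disjoint_iff.1 hc.1, finrank_bot] at e2
    rw [hfr, hfr, hB1, hB2] at e1
    rw [disjoint_iff]
    apply Submodule.finrank_eq_zero.1
    omega

/-! ### dimension at least three -/

lemma rigid {a : E → Dual ℝ V} (hn : 3 ≤ finrank ℝ V) (ha : IsLabelled a)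
    (hirr : IsIrreducible (cfg a)) : LocallyDetermined a := by
  classical
  have hA := Pool.Agent.TH792.VeeProj.matching_val (cfg a) ha.isVeeSystem hirr
  let bs := Module.finBasis ℝ V
  obtain ⟨ε, hε, h⟩ := Pool.Agent.TH792.VeeLocal.rigidity hn (cfg a) bs _ hA
  refine ⟨Finset.univ.image bs, ε, hε, fun b hb hd hclose => ?_⟩
  -- the labelling as an equivalence
  let q : E → cfg a := fun e => ⟨a e, (mem_cfg a _).2 ⟨e, rfl⟩⟩
  have hq : Function.Bijective q := by
    constructor
    · intro e f hef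
      exact ha.injective (congrArg Subtype.val hef)
    · rintro ⟨x, hx⟩
      obtain ⟨e, rfl⟩ := (mem_cfg a x).1 hx
      exact ⟨e, rfl⟩
  let Q : E ≃ cfg a := Equiv.ofBijective q hq
  have hQ : ∀ x : cfg a, a (Q.symm x) = x := by
    intro x
    have := Q.apply_symm_apply x
    exact congrArg Subtype.val this
  have hQ' : ∀ e, Q e = ⟨a e, (mem_cfg a _).2 ⟨e, rfl⟩⟩ := fun e => rfl
  set φ : cfg a → Dual ℝ V := fun x => b (Q.symm x) with hφ
  have himg : img (cfg a) φ = cfg b := by
    ext x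
    rw [mem_cfg, img, Finset.mem_image]
    constructor
    · rintro ⟨y, -, rfl⟩; exact ⟨Q.symm y, rfl⟩
    · rintro ⟨e, rfl⟩; exact ⟨Q e, Finset.mem_univ _, by simp [hφ]⟩
  have hmatch : IsMatching (cfg a) φ := by
    refine ⟨hb.injective.comp Q.symm.injective, ?_, ?_, ?_, ?_⟩
    · rw [himg]; exact hb.isVeeSystem
    · rw [himg]; exact irr_transfer ha hd.matroid hirr
    · intro s
      have h1 : LinearIndepOn ℝ φ s ↔ LinearIndepOn ℝ b (Q.symm '' s) :=
        linearIndepOn_equiv (R := ℝ) Q.symm (f := b) (s := s)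
      have h2 : LinearIndepOn ℝ (a ∘ Q.symm) s ↔ LinearIndepOn ℝ a (Q.symm '' s) :=
        linearIndepOn_equiv (R := ℝ) Q.symm (f := a) (s := s)
      rw [h1, hd.matroid, ← h2]
      have h3 : a ∘ Q.symm = fun x : cfg a => (x : Dual ℝ V) := funext hQ
      rw [h3]
    · intro P hP hc
      rw [himg]
      have hF : (inter (cfg a) P).card = ({e | a e ∈ P} : Set E).ncard := by
        rw [← Set.ncard_image_of_injective _ ha.injective, ← Set.ncard_coe_finset]
        congr 1
        ext x
        simp only [inter, cfg, Finset.coe_filter, Finset.mem_image, Finset.mem_univ, true_and,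
          Set.mem_ofPred_eq, Set.mem_image]
        constructor
        · rintro ⟨⟨e, rfl⟩, hx⟩; exact ⟨e, hx, rfl⟩
        · rintro ⟨e, hx, rfl⟩; exact ⟨⟨e, rfl⟩, hx⟩
      have h1 := hd.nu_eq P _ hP rfl (by rw [← hF]; omega)
      have h2 : φ '' {x : cfg a | (x : Dual ℝ V) ∈ P} = b '' {e | a e ∈ P} := by
        ext y
        simp only [Set.mem_image, Set.mem_ofPred_eq]
        constructor
        · rintro ⟨x, hx, rfl⟩; exact ⟨Q.symm x, by rw [hQ]; exact hx, rfl⟩
        · rintro ⟨e, hx, rfl⟩; exact ⟨Q e, hx, by simp [hφ]⟩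
      have h3 := hA.nu_eq P hP hc
      have h4 : Pool.Agent.TH792.VeeMain.val (cfg a) ''
          {x : cfg a | (x : Dual ℝ V) ∈ P} = a '' {e | a e ∈ P} := by
        ext y
        simp only [Set.mem_image, Set.mem_ofPred_eq]
        constructor
        · rintro ⟨x, hx, rfl⟩; exact ⟨Q.symm x, by rw [hQ]; exact hx, hQ x⟩
        · rintro ⟨e, hx, rfl⟩; exact ⟨Q e, hx, rfl⟩
      rw [Pool.Agent.TH792.VeeProj.img_val, h4] at h3
      rw [h2, h1, h3]
  obtain ⟨g, hg⟩ := h φ hmatch (by
    intro x i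
    have := hclose (Q.symm x) (bs i) (Finset.mem_image_of_mem _ (Finset.mem_univ i))
    rw [hQ] at this
    exact this)
  refine ⟨g, fun e => ?_⟩
  have := hg (Q e)
  simp only [hφ, Equiv.symm_apply_apply] at this
  exact this

/-! ### dimension at most one -/

lemma small {a : E → Dual ℝ V} (hn : finrank ℝ V ≤ 1) (ha : IsLabelled a) :
    LocallyDetermined a := by
  refine ⟨∅, 1, one_pos, fun b hb _ _ => ?_⟩
  rcases isEmpty_or_nonempty E with hE | ⟨⟨e₀⟩⟩
  · exact ⟨LinearEquiv.refl ℝ _, fun e => (hE.false e).elim⟩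
  have ha0 : a e₀ ≠ 0 := ha.isVeeSystem.ne_zero _ ((mem_cfg a _).2 ⟨e₀, rfl⟩)
  have hb0 : b e₀ ≠ 0 := hb.isVeeSystem.ne_zero _ ((mem_cfg b _).2 ⟨e₀, rfl⟩)
  have hd : finrank ℝ (Dual ℝ V) = 1 := by
    have h1 : finrank ℝ (Dual ℝ V) = finrank ℝ V := Subspace.dual_finrank_eq
    have h2 : 0 < finrank ℝ (Dual ℝ V) := finrank_pos_iff_exists_ne_zero.2 ⟨_, ha0⟩
    omega
  have hall : ∀ e, e = e₀ := by
    intro e
    by_contra hne
    obtain ⟨c, hc⟩ := exists_smul_eq_of_finrank_eq_one hd ha0 (a e)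
    exact ha.isVeeSystem.not_collinear _ ((mem_cfg a _).2 ⟨e₀, rfl⟩) _
      ((mem_cfg a _).2 ⟨e, rfl⟩) (fun h => hne (ha.injective h).symm) c hc.symm
  obtain ⟨c, hc⟩ := exists_smul_eq_of_finrank_eq_one hd ha0 (b e₀)
  have hc0 : c ≠ 0 := by
    rintro rfl
    rw [zero_smul] at hc
    exact hb0 hc.symm
  refine ⟨LinearEquiv.smulOfNeZero ℝ _ c hc0, fun e => ?_⟩
  rw [hall e, ← hc]
  rfl

/-! ### dimension two -/

lemma vee_id (B : Finset (Dual ℝ V)) (hB : span ℝ (B : Set (Dual ℝ V)) = ⊤) (γ : Dual ℝ V) :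
    ∑ β ∈ B, β (vee B γ) • vee B β = vee B γ := by
  obtain ⟨T, hT, hform⟩ := Pool.Agent.TH792.VeeLink.exists_veeE B hB
  simp only [hT]
  have h1 : ∑ β ∈ B, β (T γ) • β = γ := by
    ext w
    rw [LinearMap.sum_apply]
    exact hform γ w
  conv_rhs => rw [← h1]
  rw [map_sum]
  exact Finset.sum_congr rfl fun β _ => (map_smul _ _ _).symm

lemma plane_top (hn : finrank ℝ V = 2) (P : Submodule ℝ (Dual ℝ V)) (hP : finrank ℝ P = 2) :
    P = ⊤ := by
  apply eq_top_of_finrank_eq
  rw [hP, Subspace.dual_finrank_eq, hn]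

omit [FiniteDimensional ℝ V] in
lemma inter_top (B : Finset (Dual ℝ V)) : inter B ⊤ = B := by
  classical
  simp [inter]

lemma nu_top (hn : finrank ℝ V = 2) (B : Finset (Dual ℝ V))
    (hB : span ℝ (B : Set (Dual ℝ V)) = ⊤) : nu B ⊤ = 1 := by
  have h1 : ∀ γ ∈ (⊤ : Submodule ℝ (Dual ℝ V)), ∑ β ∈ inter B ⊤, β (vee B γ) • vee B β =
      nu B ⊤ • vee B γ :=
    Classical.epsilon_spec (p := fun c : ℝ => ∀ γ ∈ (⊤ : Submodule ℝ (Dual ℝ V)),
      ∑ β ∈ inter B ⊤, β (vee B γ) • vee B β = c • vee B γ)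
      ⟨1, fun γ _ => by rw [inter_top, vee_id B hB, one_smul]⟩
  have : Nontrivial (Dual ℝ V) := by
    apply Module.nontrivial_of_finrank_pos (R := ℝ)
    rw [Subspace.dual_finrank_eq, hn]; norm_num
  obtain ⟨γ, hγ⟩ := exists_ne (0 : Dual ℝ V)
  have h2 := h1 γ trivial
  rw [inter_top, vee_id B hB] at h2
  obtain ⟨T, hT, -⟩ := Pool.Agent.TH792.VeeLink.exists_veeE B hB
  have h3 : vee B γ ≠ 0 := by
    rw [hT]; exact fun h => hγ (by simpa using h)
  have h4 : (nu B ⊤ - 1) • vee B γ = 0 := by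
    rw [sub_smul, ← h2, one_smul, sub_self]
  rcases smul_eq_zero.1 h4 with h | h
  · linarith
  · exact absurd h h3

/-- in dimension two every spanning set of nonzero pairwise non-collinear covectors is a
∨-system; here for a rescaled configuration -/
lemma rescale {a : E → Dual ℝ V} (hn : finrank ℝ V = 2) (ha : IsLabelled a) (c : E → ℝ)
    (hc : ∀ e, c e ≠ 0) : IsLabelled (fun e => c e • a e) := by
  have hv := ha.isVeeSystem
  have hm : ∀ e, a e ∈ cfg a := fun e => (mem_cfg a _).2 ⟨e, rfl⟩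
  have hncol : ∀ e f, e ≠ f → ∀ t : ℝ, c f • a f ≠ t • c e • a e := by
    intro e f hef t h
    apply hv.not_collinear _ (hm e) _ (hm f) (fun h => hef (ha.injective h)) ((c f)⁻¹ * t * c e)
    rw [mul_smul, mul_smul, ← h, smul_smul, inv_mul_cancel₀ (hc f), one_smul]
  have hinj : Function.Injective (fun e => c e • a e) := by
    intro e f hef
    by_contra hne
    refine hncol e f hne 1 ?_
    rw [one_smul]
    exact hef.symm
  have hspan : span ℝ (cfg (fun e => c e • a e) : Set (Dual ℝ V)) = ⊤ := by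
    rw [eq_top_iff, ← hv.span_eq_top, span_le, coe_cfg, coe_cfg]
    rintro _ ⟨e, rfl⟩
    have h1 : c e • a e ∈ span ℝ (Set.range fun e => c e • a e) := subset_span ⟨e, rfl⟩
    have h2 := smul_mem _ (c e)⁻¹ h1
    rwa [smul_smul, inv_mul_cancel₀ (hc e), one_smul] at h2
  refine ⟨hinj, ?_, ?_, hspan, ?_⟩
  · intro x hx
    obtain ⟨e, rfl⟩ := (mem_cfg _ x).1 hx
    exact smul_ne_zero (hc e) (hv.ne_zero _ (hm e))
  · intro x hx y hy hxy t
    obtain ⟨e, rfl⟩ := (mem_cfg _ x).1 hx
    obtain ⟨f, rfl⟩ := (mem_cfg _ y).1 hy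
    exact hncol e f (fun h => hxy (by rw [h])) t
  · intro P hP x _
    rw [plane_top hn P hP, inter_top]
    exact ⟨1, by rw [vee_id _ hspan, one_smul]⟩

omit [FiniteDimensional ℝ V] in
lemma three {a : E → Dual ℝ V} (hn : finrank ℝ V = 2) (ha : IsLabelled a)
    (hirr : IsIrreducible (cfg a)) : ∃ e₁ e₂ e₃ : E, e₁ ≠ e₂ ∧ e₃ ≠ e₁ ∧ e₃ ≠ e₂ ∧
      span ℝ {a e₁, a e₂} = ⊤ := by
  have hv := ha.isVeeSystem
  have hm : ∀ e, a e ∈ cfg a := fun e => (mem_cfg a _).2 ⟨e, rfl⟩
  have hfr : finrank ℝ (Dual ℝ V) = 2 := by rw [Subspace.dual_finrank_eq, hn]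
  have hcard : 2 ≤ Fintype.card E := by
    have h1 := finrank_range_le_card (R := ℝ) a
    have h2 : Set.finrank ℝ (Set.range a) = 2 := by
      rw [Set.finrank, ← coe_cfg, hv.span_eq_top, finrank_top, hfr]
    omega
  obtain ⟨e₁, e₂, hne⟩ := Fintype.one_lt_card_iff.1 (show 1 < Fintype.card E by omega)
  have hind : LinearIndependent ℝ ![a e₁, a e₂] := by
    rw [LinearIndependent.pair_iff' (hv.ne_zero _ (hm e₁))]
    intro t ht
    exact hv.not_collinear _ (hm e₁) _ (hm e₂) (fun h => hne (ha.injective h)) t ht.symm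
  have hsp : span ℝ {a e₁, a e₂} = ⊤ := by
    have := hind.span_eq_top_of_card_eq_finrank (by simp [hfr])
    rwa [Matrix.range_cons, Matrix.range_cons, Matrix.range_empty, Set.union_empty,
      Set.singleton_union] at this
  by_cases h3 : ∃ e₃, e₃ ≠ e₁ ∧ e₃ ≠ e₂
  · obtain ⟨e₃, h31, h32⟩ := h3
    exact ⟨e₁, e₂, e₃, hne, h31, h32, hsp⟩
  exfalso
  push Not at h3
  refine hirr {a e₁} {a e₂} ?_ ?_ (Set.singleton_nonempty _) (Set.singleton_nonempty _) ?_
  · rw [coe_cfg]
    ext x
    constructor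
    · rintro (rfl | rfl)
      · exact ⟨_, rfl⟩
      · exact ⟨_, rfl⟩
    · rintro ⟨e, rfl⟩
      by_cases h : e = e₁
      · left; rw [h]; rfl
      · right; rw [h3 e h]; rfl
  · rw [Set.disjoint_singleton]
    exact fun h => hne (ha.injective h)
  · constructor
    · rw [disjoint_def]
      intro x hx hy
      obtain ⟨s, rfl⟩ := mem_span_singleton.1 hx
      obtain ⟨t, ht⟩ := mem_span_singleton.1 hy
      have := LinearIndependent.pair_iff.1 hind s (-t) (by rw [neg_smul, ht, add_neg_cancel])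
      rw [this.1, zero_smul]
    · rw [codisjoint_iff, ← span_union, Set.singleton_union]
      exact hsp

lemma not_rigid {a : E → Dual ℝ V} (hn : finrank ℝ V = 2) (ha : IsLabelled a)
    (hirr : IsIrreducible (cfg a)) : ¬ LocallyDetermined a := by
  classical
  rintro ⟨S, ε, hε, h⟩
  obtain ⟨e₁, e₂, e₃, h12, h31, h32, hsp⟩ := three hn ha hirr
  have hv := ha.isVeeSystem
  -- a small rescaling of the third covector
  obtain ⟨δ, hδ, hδS⟩ : ∃ δ : ℝ, 0 < δ ∧ ∀ v ∈ S, δ * |a e₃ v| < ε := by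
    obtain ⟨M, hM⟩ := (S.finite_toSet.image fun v => |a e₃ v|).bddAbove
    have hM' : 0 < |M| + 1 := by positivity
    refine ⟨ε / (2 * (|M| + 1)), by positivity, fun v hv => ?_⟩
    have h1 : |a e₃ v| ≤ |M| := (hM ⟨v, hv, rfl⟩).trans (le_abs_self M)
    have h2 : ε / (2 * (|M| + 1)) * |a e₃ v| ≤ ε / (2 * (|M| + 1)) * (|M| + 1) := by
      apply mul_le_mul_of_nonneg_left _ (by positivity)
      linarith
    have h3 : ε / (2 * (|M| + 1)) * (|M| + 1) = ε / 2 := by
      field_simp
    linarith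
  set c : E → ℝ := fun e => if e = e₃ then 1 + δ else 1 with hc
  have hc0 : ∀ e, c e ≠ 0 := by
    intro e
    simp only [hc]
    split_ifs <;> positivity
  have hb := rescale hn ha c hc0
  have hdata : SameData a (fun e => c e • a e) := by
    constructor
    · intro s
      have := LinearIndependent.units_smul_iff (R := ℝ) (v := fun x : s => a x)
        (w := fun x : s => Units.mk0 (c x) (hc0 x))
      exact this
    · rintro P F hP rfl hF
      have e1 : ∀ (b : E → Dual ℝ V), span ℝ (cfg b : Set (Dual ℝ V)) = ⊤ →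
          nu (cfg b) (span ℝ (b '' {e | a e ∈ P})) = 1 := by
        intro b hbs
        have : ({e | a e ∈ P} : Set E) = Set.univ := by
          rw [plane_top hn P hP]; simp
        rw [this, Set.image_univ, ← coe_cfg, hbs]
        exact nu_top hn _ hbs
      rw [e1 _ hb.isVeeSystem.span_eq_top, e1 _ hv.span_eq_top]
  obtain ⟨g, hg⟩ := h _ hb hdata (by
    intro e v hvS
    by_cases he : e = e₃
    · subst he
      have : (c e • a e) v - a e v = δ * a e v := by
        simp only [hc, if_true, LinearMap.smul_apply, smul_eq_mul]; ring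
      rw [this, abs_mul, abs_of_pos hδ]
      exact hδS v hvS
    · have : (c e • a e) v - a e v = 0 := by
        simp only [hc, if_neg he, one_smul, sub_self]
      rw [this, abs_zero]
      exact hε)
  have hg1 : g (a e₁) = a e₁ := by
    rw [← hg e₁]; simp only [hc, if_neg h31.symm, one_smul]
  have hg2 : g (a e₂) = a e₂ := by
    rw [← hg e₂]; simp only [hc, if_neg h32.symm, one_smul]
  have hid : ∀ x : Dual ℝ V, g x = x := by
    intro x
    have hx : x ∈ span ℝ {a e₁, a e₂} := by rw [hsp]; trivial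
    obtain ⟨s, t, rfl⟩ := mem_span_pair.1 hx
    rw [map_add, map_smul, map_smul, hg1, hg2]
  have h3 := hg e₃
  rw [hid] at h3
  simp only [hc, if_true] at h3
  have h4 : δ • a e₃ = 0 := by
    have : (1 + δ) • a e₃ = a e₃ + δ • a e₃ := by rw [add_smul, one_smul]
    rw [this] at h3
    exact left_eq_add.1 h3.symm
  rcases smul_eq_zero.1 h4 with h5 | h5
  · exact hδ.ne' h5
  · exact hv.ne_zero _ ((mem_cfg a _).2 ⟨e₃, rfl⟩) h5

/-- **Answer to Q1.** An irreducible labelled ∨-system (of pairwise non-collinear covectors) in a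
real vector space `V` of finite dimension is locally determined by its matroid and its ν-function
if and only if `dim V ≠ 2`. In particular all irreducible ∨-systems in dimension at least three
are locally determined, and none is in dimension two. -/
theorem result (a : E → Dual ℝ V) (ha : IsLabelled a) (hirr : IsIrreducible (cfg a)) :
    LocallyDetermined a ↔ finrank ℝ V ≠ 2 := by
  constructor
  · intro h hn
    exact not_rigid hn ha hirr h
  · intro hn
    rcases Nat.lt_or_ge (finrank ℝ V) 3 with h | h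
    · exact small (by omega) ha
    · exact rigid h ha hirr

end

end Pool.Agent.Results.MP_44d68a_mp.LocalRigidity
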